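import Pool.Graph.R_seed8.Results.MP_c57e60_co.EveryValue

set_option autoImplicit false

/-!
# Gadgets with level-dependent chain lengths

The gadgets of the library proof are built with the same chain length on all levels. Here the chain
length on the level `j` is `3 j + 9`, and only the last chain depends on `L`.
-/

namespace Pool.Agent.KS6_48.CYC

open Finset Pool.Agent.Helper398.SccA Pool.Agent.Helper398.SccB Pool.Agent.Helper398.SccC
  Pool.Agent.Helper398.SccD Pool.Agent.Helper398.SccE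
open Pool.Agent.Results.MP_c57e60_co.Unbounded (ThreeConnected IsCycleCover coverLength
  IsShortestCover mult maxMult tSCC mult_le_max)

/-- The gadgets: `HH d` forces `d + 2` cycles through its first dangling edge. -/
def HH : ℕ → Pole
  | 0 => G2
  | d + 1 => chain (HH d) (3 * d + 12)

/-- the least cost -/
def BH : ℕ → ℕ
  | 0 => 20
  | d + 1 => (3 * d + 12) * (4 * BH d + 4 * (d + 2) + 24) + 2 * (d + 2 + 1)

theorem lb_HH : ∀ d, ∃ ρ, LB (HH d) (d + 2) (BH d) ρ ∧ (1 ≤ d → 4 * (d + 2) + 6 ≤ ρ) := by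
  intro d
  induction d with
  | zero =>
    refine ⟨0, ?_, by omega⟩
    intro ι _ c r h
    obtain ⟨h1, h2, -⟩ := lb_G2 ι c r h
    exact ⟨h1, h2, by omega⟩
  | succ d ih =>
    obtain ⟨ρ, h1, h2⟩ := ih
    exact ⟨_, lb_chain h1 (by omega) (by omega) (by omega), by omega⟩

theorem inj_HH (d : ℕ) : Function.Injective (HH d).t := by
  cases d with
  | zero => exact inj_G2
  | succ d =>
    have e : 3 * d + 12 = (3 * d + 11) + 1 := by omega
    change Function.Injective (chain (HH d) (3 * d + 12)).t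
    rw [e]
    exact inj_sub _

theorem conn_HH (d : ℕ) : Conn (HH d) := by
  induction d with
  | zero => exact conn_G2
  | succ d ih => exact conn_chain ih (Or.inr (inj_HH d)) _

theorem simp_HH (d : ℕ) : Simp (HH d) := by
  induction d with
  | zero => exact simp_G2
  | succ d ih => exact simp_chain ih _

theorem UM_HH : ∀ d, Pool.Agent.Y426.SCC.UM (HH d) (d + 2) (d + 1) 1 (BH d) (d + 2) := by
  intro d
  induction d with
  | zero => exact Pool.Agent.Y426.SCC.UM_G2.mono (by omega)
  | succ d ih => exact Pool.Agent.Y426.SCC.UM_chain ih _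

theorem deg34_HH (d : ℕ) : Pool.Agent.Y426.SCC.Deg34 (HH d) := by
  induction d with
  | zero => exact Pool.Agent.Y426.SCC.dg_G2
  | succ d ih => exact Pool.Agent.Y426.SCC.deg34_chain ih _

theorem card_HH (d : ℕ) :
    3 * (Fintype.card (HH d).V + 3) ≤ 4 * 12 ^ d * (d + 3).factorial := by
  induction d with
  | zero =>
    have h : Fintype.card (HH 0).V = 5 := rfl
    rw [h]
    norm_num [Nat.factorial]
  | succ d ih =>
    have h : Fintype.card (HH (d + 1)).V =
        1 + (3 * d + 12) * (4 * Fintype.card (HH d).V + 8) :=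
      Pool.Agent.Y426.SCC.card_chain _ _
    rw [h]
    generalize Fintype.card (HH d).V = n at *
    have h2 : 4 * 12 ^ (d + 1) * (d + 1 + 3).factorial =
        12 * (d + 4) * (4 * 12 ^ d * (d + 3).factorial) := by
      rw [show d + 1 + 3 = (d + 3) + 1 by ring, Nat.factorial_succ, pow_succ]
      ring
    rw [h2]
    refine le_trans ?_ (Nat.mul_le_mul_left _ ih)
    nlinarith [Nat.zero_le (n * d)]

/-- the closed graph before closing -/
def AA (e R : ℕ) : Pole := chain (HH e) R

/-- its least cost -/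
def BA (e R : ℕ) : ℕ := R * (4 * BH e + 4 * (e + 2) + 24) + 2 * (e + 3)

/-- The number of edges of a covering family counted with multiplicity, lower bounds. -/
lemma total_ge (e R : ℕ) (hR : 2 * e + 5 ≤ R) {ι : Type} [Fintype ι]
    (c : ι → (AA e R).E → ZMod 2) (r : ι → Fin 3 → ZMod 2) (h : IsCov (AA e R) c r) :
    BA e R + 2 * (e + 3) ≤ cost (AA e R) c r + (wt (fun a => r a 0) + wt (fun a => r a 1) +
      wt (fun a => r a 2)) ∧
    (wt (fun a => r a 0) < e + 3 → BA e R + (2 * R - 2 * (e + 3)) + 4 ≤ cost (AA e R) c r +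
      (wt (fun a => r a 0) + wt (fun a => r a 1) + wt (fun a => r a 2))) := by
  obtain ⟨ρ, g1, g2⟩ := lb_HH e
  have hL : LB (AA e R) (e + 3) (BA e R) (2 * R - 2 * (e + 3)) :=
    lb_chain g1 (by omega) (by omega) (by omega)
  obtain ⟨h1, h2, h3⟩ := hL ι c r h
  have tri := triple_le (fun a => r a 0) (fun a => r a 1) (fun a => r a 2)
    (fun a => root_sum (h.even a))
  have par := triple_even (fun a => r a 0) (fun a => r a 1) (fun a => r a 2)
    (fun a => root_sum (h.even a))
  have p0 := h.posR 0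
  have p1 := h.posR 1
  have p2 := h.posR 2
  refine ⟨?_, ?_⟩
  · rcases Nat.lt_or_ge (wt (fun a => r a 0)) (e + 3) with hlt | hge
    · have := h3 (by omega) hlt
      omega
    · omega
  · intro hlt
    have := h3 (by omega) hlt
    omega

/-- The case `t ≥ 3`. -/
theorem main : ∀ t L : ℕ, 3 ≤ t →
    ∃ (V : Type) (_ : Fintype V) (_ : DecidableEq V) (G : SimpleGraph V),
      ThreeConnected G ∧
      (∀ v, (G.neighborSet v).ncard = 3 ∨ (G.neighborSet v).ncard = 4) ∧
      9 * Fintype.card V ≤ 4 * 12 ^ (t - 2) * t.factorial * (2 * t - 1 + L) ∧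
      (∃ F, IsShortestCover G F) ∧
      tSCC G = t ∧
      ∃ e ∈ G.edgeSet, ∀ F, IsCycleCover G F →
        (∀ F', IsShortestCover G F' → coverLength F ≤ coverLength F' + L) → t ≤ mult F e := by
  intro t L ht
  obtain ⟨d, rfl⟩ : ∃ d, t = d + 3 := ⟨t - 3, by omega⟩
  obtain ⟨R, hRdef⟩ : ∃ R, R = 2 * d + 5 + L := ⟨_, rfl⟩
  have hR : 2 * d + 5 ≤ R := by omega
  have hR1 : 1 ≤ R := by omega
  have hS : Simp (AA d R) := simp_chain (simp_HH d) R
  have hi : Function.Injective (AA d R).t := by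
    obtain ⟨m, hm⟩ := Nat.exists_eq_add_of_le' hR1
    unfold AA
    rw [hm]
    exact inj_sub _
  have hC : Conn (AA d R) := conn_chain (conn_HH d) (Or.inr (inj_HH d)) R
  obtain ⟨n, hn⟩ : Pool.Agent.Y426.SCC.UM (AA d R) (d + 3) (d + 2) 1 (BA d R) (d + 3) :=
    Pool.Agent.Y426.SCC.UM_chain (UM_HH d) R
  obtain ⟨c, r, hcov, h0, h1, h2, hcost, hmax⟩ := hn n le_rfl
  obtain ⟨C, hC1, hC2, hC3⟩ := Pool.Agent.Helper398.SccG.from_family hS hi c r hcov.even
  have hCcov : IsCycleCover (Pool.Agent.Helper398.SccF.gr (AA d R)) C := by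
    refine ⟨hC1, fun e he => ?_⟩
    obtain ⟨x, rfl⟩ := (Pool.Agent.Helper398.SccF.mem_edgeSet hS e).1 he
    have hpos : 0 < Pool.Agent.Helper398.SccF.mult C (Pool.Agent.Helper398.SccF.ed _ x) := by
      rcases x with x | j
      · rw [hC2]; exact hcov.posE x
      · rw [hC3]; exact hcov.posR j
    obtain ⟨D, hD, hDe⟩ := List.countP_pos_iff.1 hpos
    exact ⟨D, hD, by simpa using hDe⟩
  have hlen : 2 * coverLength C = BA d R + 2 * (d + 3) := by
    unfold coverLength
    rw [Pool.Agent.Helper398.SccF.length_eq hS hi C hC1, Pool.Agent.Helper398.SccF.sum_split]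
    simp only [hC2, hC3]
    unfold cost at hcost
    rw [Fin.sum_univ_three] at hcost ⊢
    omega
  -- the length of an arbitrary cover
  have hall : ∀ F, IsCycleCover (Pool.Agent.Helper398.SccF.gr (AA d R)) F →
      BA d R + 2 * (d + 3) ≤ 2 * coverLength F ∧
      (mult F (Pool.Agent.Helper398.SccF.ed _ (Sum.inr 0)) < d + 3 →
        BA d R + (2 * R - 2 * (d + 3)) + 4 ≤ 2 * coverLength F) := by
    intro F hF
    have hcovF := Pool.Agent.Helper398.SccF.cover_cov hS hi F hF.1 hF.2
    have htwo := Pool.Agent.Helper398.SccF.two_length hS hi F hF.1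
    have hlenF : coverLength F = (F.map (fun C => C.2.length)).sum := rfl
    rw [← hlenF] at htwo
    obtain ⟨a1, a2⟩ := total_ge d R hR _ _ hcovF
    rw [Pool.Agent.Helper398.SccF.wtR_mult F 0, Pool.Agent.Helper398.SccF.wtR_mult F 1,
      Pool.Agent.Helper398.SccF.wtR_mult F 2] at a1
    rw [Pool.Agent.Helper398.SccF.wtR_mult F 0, Pool.Agent.Helper398.SccF.wtR_mult F 1,
      Pool.Agent.Helper398.SccF.wtR_mult F 2] at a2
    rw [← htwo] at a1 a2
    exact ⟨a1, a2⟩
  have hCshort : IsShortestCover (Pool.Agent.Helper398.SccF.gr (AA d R)) C := by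
    refine ⟨hCcov, fun F' hF' => ?_⟩
    have := (hall F' hF').1
    omega
  have hedge : Pool.Agent.Helper398.SccF.ed _ (Sum.inr 0) ∈
      (Pool.Agent.Helper398.SccF.gr (AA d R)).edgeSet :=
    (Pool.Agent.Helper398.SccF.mem_edgeSet hS _).2 ⟨_, rfl⟩
  have hrob : ∀ F, IsCycleCover (Pool.Agent.Helper398.SccF.gr (AA d R)) F →
      (∀ F', IsShortestCover (Pool.Agent.Helper398.SccF.gr (AA d R)) F' →
        coverLength F ≤ coverLength F' + L) →
      d + 3 ≤ mult F (Pool.Agent.Helper398.SccF.ed _ (Sum.inr 0)) := by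
    intro F hF hle
    have h3 := hle C hCshort
    obtain ⟨_, b2⟩ := hall F hF
    by_contra hlt
    have hlt' : mult F (Pool.Agent.Helper398.SccF.ed _ (Sum.inr 0)) < d + 3 :=
      Nat.lt_of_not_le hlt
    have := b2 hlt'
    omega
  have hCmax : maxMult C ≤ d + 3 := by
    unfold maxMult
    have : Nonempty (Pool.Agent.Helper398.SccF.gr (AA d R)).edgeSet := ⟨⟨_, hedge⟩⟩
    refine ciSup_le ?_
    rintro ⟨e, he⟩
    obtain ⟨x, rfl⟩ := (Pool.Agent.Helper398.SccF.mem_edgeSet hS e).1 he
    rcases x with x | j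
    · exact (hC2 x).le.trans (hmax x)
    · have hj : ∀ j : Fin 3, j = 0 ∨ j = 1 ∨ j = 2 := by decide
      rcases hj j with rfl | rfl | rfl
      · exact ((hC3 0).trans h0).le
      · exact ((hC3 1).trans h1).le.trans (by omega)
      · exact ((hC3 2).trans h2).le.trans (by omega)
  refine ⟨_, inferInstance, inferInstance, Pool.Agent.Helper398.SccF.gr (AA d R),
    Pool.Agent.Helper398.SccG.three_conn hS hC hi,
    Pool.Agent.Y426.SCC.deg_gr hS hi (Pool.Agent.Y426.SCC.deg34_chain (deg34_HH d) R), ?_, ⟨C, hCshort⟩, ?_,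
    _, hedge, hrob⟩
  · rw [Fintype.card_option]
    have h3 := card_HH d
    have h4 : Fintype.card (AA d R).V = 1 + R * (4 * Fintype.card (HH d).V + 8) :=
      Pool.Agent.Y426.SCC.card_chain _ _
    have h5 : 2 * (d + 3) - 1 + L = R := by omega
    have h6 : d + 3 - 2 = d + 1 := by omega
    rw [h4, h5, h6]
    generalize Fintype.card (HH d).V = n at *
    calc 9 * (1 + R * (4 * n + 8) + 1) ≤ 12 * R * (3 * (n + 3)) := by nlinarith
      _ ≤ 12 * R * (4 * 12 ^ d * (d + 3).factorial) := Nat.mul_le_mul_left _ h3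
      _ = 4 * 12 ^ (d + 1) * (d + 3).factorial * R := by rw [pow_succ]; ring
  · apply le_antisymm
    · exact (Nat.sInf_le ⟨C, hCshort, rfl⟩ : tSCC _ ≤ maxMult C).trans hCmax
    · have hmem : tSCC (Pool.Agent.Helper398.SccF.gr (AA d R)) ∈
          {t : ℕ | ∃ F : List (Σ u : Option (AA d R).V,
            (Pool.Agent.Helper398.SccF.gr (AA d R)).Walk u u),
            IsShortestCover (Pool.Agent.Helper398.SccF.gr (AA d R)) F ∧ maxMult F = t} :=
        Nat.sInf_mem ⟨_, C, hCshort, rfl⟩
      obtain ⟨F, hF1, hF2⟩ := hmem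
      have h3 := hrob F hF1.1 (fun F' hF' => (hF1.2 F' hF'.1).trans (Nat.le_add_right _ _))
      have h4 := mult_le_max F _ hedge
      exact (h3.trans h4).trans hF2.le


end Pool.Agent.KS6_48.CYC
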